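import Pool.Agent.N353.Conn.Det

set_option autoImplicit false

namespace Pool.Agent.Results.MP_8c9d5b_co.AlmostAllKConnected

open Filter

/-- labelled `n`-element matroids: matroids on the ground set `Fin n` -/
abbrev Labelled (n : ℕ) : Type := {M : Matroid (Fin n) // M.E = Set.univ}

/-- isomorphism: a permutation of the ground set that preserves bases -/
def Iso {n : ℕ} (M N : Labelled n) : Prop :=
  ∃ σ : Equiv.Perm (Fin n), ∀ B : Set (Fin n), M.1.IsBase B ↔ N.1.IsBase (σ '' B)

/-- unlabelled `n`-element matroids: isomorphism classes -/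
abbrev Unlabelled (n : ℕ) : Type := Quot (Iso (n := n))

/-- `(X, Y)` is a `j`-separation of `M`: a partition of the ground set into parts with at least
`j` elements each, and `r(X) + r(Y) - r(M) ≤ j - 1` -/
def IsSeparation {α : Type} (M : Matroid α) (j : ℕ) (X Y : Set α) : Prop :=
  X ∪ Y = M.E ∧ Disjoint X Y ∧ (j : ℕ∞) ≤ X.encard ∧ (j : ℕ∞) ≤ Y.encard ∧
    M.eRk X + M.eRk Y + 1 ≤ M.eRank + j

/-- `M` is (Tutte) `k`-connected -/
def KConnected {α : Type} (k : ℕ) (M : Matroid α) : Prop :=
  ∀ j : ℕ, 1 ≤ j → j < k → ∀ X Y : Set α, ¬ IsSeparation M j X Y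

/-- for every `k ≥ 2`, asymptotically almost every matroid is `k`-connected, counting labelled
matroids and counting isomorphism classes -/
theorem result (k : ℕ) (_hk : 2 ≤ k) :
    Tendsto (fun n : ℕ =>
      (Nat.card {M : Labelled n // KConnected k M.1} : ℝ) / (Nat.card (Labelled n) : ℝ))
      atTop (nhds 1) ∧
    Tendsto (fun n : ℕ =>
      (Nat.card {q : Unlabelled n // ∀ M : Labelled n, Quot.mk _ M = q → KConnected k M.1} : ℝ) /
        (Nat.card (Unlabelled n) : ℝ))
      atTop (nhds 1) := by
  have h := Pool.Agent.N353.Star.transfer (fun n M => KConnected k M) (1 / (2 * 256 ^ k))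
    (by positivity) (by
      filter_upwards [Pool.Agent.N353.Conn.det k] with n hn M r hr hB hG j hj1 hj2 X Y hs
      exact hn M r hr hB hG j hj1 hj2 X Y hs)
  exact h

end Pool.Agent.Results.MP_8c9d5b_co.AlmostAllKConnected
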